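import Pool.Agent.U540.HC.Stm

/-!
# Project HC, package HANF: Hanf locality for configurations on the grid
-/

set_option autoImplicit false

namespace Pool.Agent.U15.HC

open FirstOrder FirstOrder.Language Pool.Agent.U540.HC

variable {L : FirstOrder.Language.{0, 0}} {Λ H Q : Type}

/-! ## Norms -/

/-- sup norm at most `r` -/
def Nr (r : ℕ) (d : Pos) : Prop := |d.1| ≤ (r : ℤ) ∧ |d.2| ≤ (r : ℤ)

lemma Nr.mono {r s : ℕ} (h : r ≤ s) {d : Pos} (hd : Nr r d) : Nr s d :=
  ⟨hd.1.trans (by exact_mod_cast h), hd.2.trans (by exact_mod_cast h)⟩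

lemma Nr.neg {r : ℕ} {d : Pos} (hd : Nr r d) : Nr r (-d) := by
  simpa [Nr] using hd

lemma Nr.add {r s : ℕ} {d e : Pos} (hd : Nr r d) (he : Nr s e) : Nr (r + s) (d + e) := by
  obtain ⟨h1, h2⟩ := hd
  obtain ⟨h3, h4⟩ := he
  constructor
  · have h5 := abs_add_le d.1 e.1
    simp only [Prod.fst_add]
    push_cast
    linarith
  · have h5 := abs_add_le d.2 e.2
    simp only [Prod.snd_add]
    push_cast
    linarith

lemma Nr.zero (r : ℕ) : Nr r 0 := by simp [Nr]

lemma Nr.comm {r : ℕ} {p q : Pos} (h : Nr r (p - q)) : Nr r (q - p) := by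
  have := h.neg
  rwa [neg_sub] at this

instance (r : ℕ) : Finite (Box r) := by
  refine ((Set.finite_Icc ((-(r : ℤ), -(r : ℤ)) : ℤ × ℤ) ((r : ℤ), (r : ℤ))).subset ?_).to_subtype
  rintro d ⟨h1, h2⟩
  rw [abs_le] at h1 h2
  exact ⟨⟨h1.1, h2.1⟩, ⟨h1.2, h2.2⟩⟩

lemma win_eq {r : ℕ} {l l' : Pos → Λ} {p p' : Pos} :
    win r l p = win r l' p' ↔ ∀ d, Nr r d → l (p + d) = l' (p' + d) :=
  ⟨fun h d hd => congrFun h ⟨d, hd⟩, fun h => funext fun d => h d.1 d.2⟩

lemma ce_symm {R T : ℕ} {l l' : Pos → Λ} (h : CountEq R T l l') : CountEq R T l' l :=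
  fun r hr w => (h r hr w).symm

lemma ce_mono {R T R0 T0 : ℕ} {l l' : Pos → Λ} (h : CountEq R T l l') (hR : R0 ≤ R)
    (hT : T0 ≤ T) : CountEq R0 T0 l l' := by
  intro r hr w
  have h1 := h r (hr.trans hR) w
  have h2 : (T0 : ℕ∞) ≤ T := by exact_mod_cast hT
  have h3 : ∀ a : ℕ∞, min (T0 : ℕ∞) a = min (T0 : ℕ∞) (min (T : ℕ∞) a) := fun a => by
    rw [← min_assoc, min_eq_left h2]
  rw [h3, h1, ← h3]

/-! ## Back and forth relation -/

/-- the elements `a`, `a'` look alike up to distance `r` -/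
def G1 (r : ℕ) (l l' : Pos → Λ) (a a' : H ⊕ (Pos × Q)) : Prop :=
  (∃ h, a = Sum.inl h ∧ a' = Sum.inl h) ∨
    ∃ p p' q, a = Sum.inr (p, q) ∧ a' = Sum.inr (p', q) ∧ ∀ d, Nr r d → l (p + d) = l' (p' + d)

/-- the pairs `a`, `b` and `a'`, `b'` look alike up to distance `r` -/
def G2 (r : ℕ) (a a' b b' : H ⊕ (Pos × Q)) : Prop :=
  ∀ p p' q p1 p1' q1, a = Sum.inr (p, q) → a' = Sum.inr (p', q) → b = Sum.inr (p1, q1) →
    b' = Sum.inr (p1', q1) → (Nr r (p - p1) ∨ Nr r (p' - p1')) → p - p1 = p' - p1'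

/-- the tuples look alike up to distance `r` -/
def BF {n : ℕ} (r : ℕ) (l l' : Pos → Λ) (x x' : Fin n → H ⊕ (Pos × Q)) : Prop :=
  (∀ i, G1 r l l' (x i) (x' i)) ∧ ∀ i j, G2 r (x i) (x' i) (x j) (x' j)

lemma G1.mono {r s : ℕ} (hrs : r ≤ s) {l l' : Pos → Λ} {a a' : H ⊕ (Pos × Q)}
    (h : G1 s l l' a a') : G1 r l l' a a' := by
  rcases h with h | ⟨p, p', q, h1, h2, h3⟩
  · exact Or.inl h
  · exact Or.inr ⟨p, p', q, h1, h2, fun d hd => h3 d (hd.mono hrs)⟩

lemma G1.symm {r : ℕ} {l l' : Pos → Λ} {a a' : H ⊕ (Pos × Q)}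
    (h : G1 r l l' a a') : G1 r l' l a' a := by
  rcases h with ⟨h, h1, h2⟩ | ⟨p, p', q, h1, h2, h3⟩
  · exact Or.inl ⟨h, h2, h1⟩
  · exact Or.inr ⟨p', p, q, h2, h1, fun d hd => (h3 d hd).symm⟩

lemma G2.mono {r s : ℕ} (hrs : r ≤ s) {a a' b b' : H ⊕ (Pos × Q)}
    (h : G2 s a a' b b') : G2 r a a' b b' := by
  intro p p' q p1 p1' q1 e1 e2 e3 e4 e5
  exact h p p' q p1 p1' q1 e1 e2 e3 e4 (e5.imp (fun h => h.mono hrs) fun h => h.mono hrs)

lemma G2.symm {r : ℕ} {a a' b b' : H ⊕ (Pos × Q)}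
    (h : G2 r a a' b b') : G2 r a' a b' b := by
  intro p p' q p1 p1' q1 e1 e2 e3 e4 e5
  exact (h p' p q p1' p1 q1 e2 e1 e4 e3 e5.symm).symm

lemma G2.swap {r : ℕ} {a a' b b' : H ⊕ (Pos × Q)}
    (h : G2 r a a' b b') : G2 r b b' a a' := by
  intro p p' q p1 p1' q1 e1 e2 e3 e4 e5
  have h1 := h p1 p1' q1 p p' q e3 e4 e1 e2 (e5.imp (fun h => h.comm) fun h => h.comm)
  rw [← neg_sub, h1, neg_sub]

lemma G2.refl {r : ℕ} (a a' : H ⊕ (Pos × Q)) : G2 r a a' a a' := by
  intro p p' q p1 p1' q1 e1 e2 e3 e4 e5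
  have h1 : ((p, q) : Pos × Q) = (p1, q1) := Sum.inr.inj (e1.symm.trans e3)
  have h2 : ((p', q) : Pos × Q) = (p1', q1) := Sum.inr.inj (e2.symm.trans e4)
  rw [(Prod.mk.inj h1).1, (Prod.mk.inj h2).1, sub_self, sub_self]

lemma BF.mono {n r s : ℕ} (hrs : r ≤ s) {l l' : Pos → Λ} {x x' : Fin n → H ⊕ (Pos × Q)}
    (h : BF s l l' x x') : BF r l l' x x' :=
  ⟨fun i => (h.1 i).mono hrs, fun i j => (h.2 i j).mono hrs⟩

lemma BF.symm {n r : ℕ} {l l' : Pos → Λ} {x x' : Fin n → H ⊕ (Pos × Q)}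
    (h : BF r l l' x x') : BF r l' l x' x :=
  ⟨fun i => (h.1 i).symm, fun i j => (h.2 i j).symm⟩

lemma BF.comp {n k r : ℕ} {l l' : Pos → Λ} {x x' : Fin n → H ⊕ (Pos × Q)}
    (h : BF r l l' x x') (f : Fin k → Fin n) : BF r l l' (fun i => x (f i)) (fun i => x' (f i)) :=
  ⟨fun i => h.1 (f i), fun i j => h.2 (f i) (f j)⟩

lemma BF.snoc {n r : ℕ} {l l' : Pos → Λ} {x x' : Fin n → H ⊕ (Pos × Q)} (h : BF r l l' x x')
    {a a' : H ⊕ (Pos × Q)} (h1 : G1 r l l' a a') (h2 : ∀ j, G2 r a a' (x j) (x' j)) :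
    BF r l l' (Fin.snoc x a : Fin (n + 1) → H ⊕ (Pos × Q))
      (Fin.snoc x' a' : Fin (n + 1) → H ⊕ (Pos × Q)) := by
  constructor
  · intro i
    refine Fin.lastCases ?_ (fun i => ?_) i
    · simpa using h1
    · simpa using h.1 i
  · intro i j
    refine Fin.lastCases ?_ (fun i => ?_) i
    · refine Fin.lastCases ?_ (fun j => ?_) j
      · simpa using G2.refl a a'
      · simpa using h2 j
    · refine Fin.lastCases ?_ (fun j => ?_) j
      · simpa using (h2 i).swap
      · simpa using h.2 i j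

/-! ## Atomic formulas -/

lemma shift_zero_sub {p : Pos} {y a : H ⊕ (Pos × Q)} (h : a = shift p y) :
    (∃ h, y = Sum.inl h ∧ a = Sum.inl h) ∨ ∃ o q, y = Sum.inr (o, q) ∧ a = Sum.inr (p + o, q) := by
  rcases y with h0 | ⟨o, q⟩
  · exact Or.inl ⟨h0, rfl, h⟩
  · exact Or.inr ⟨o, q, rfl, h⟩

lemma rel_forth (S : Sys L Λ H Q) [L.IsRelational] {l l' : Pos → Λ} {SH : Set H} {k : ℕ} (Rl : L.Relations k)
    (hC : CountEq 0 1 l l') (x : Fin k → S.Car l SH) (x' : Fin k → S.Car l' SH)
    (h : BF 2 l l' (fun i => (x i).1) (fun i => (x' i).1)) (hr : Structure.RelMap Rl x) :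
    Structure.RelMap Rl x' := by
  obtain ⟨p, y, hy, hx⟩ := hr
  change ∃ (p : Pos) (y : Fin k → H ⊕ (Pos × Q)), S.rule Rl (l' p) y ∧ ∀ i, (x' i).1 = shift p (y i)
  by_cases hi : ∃ i o q, y i = Sum.inr (o, q)
  · obtain ⟨i, o, q, hi⟩ := hi
    have hxi : (x i).1 = Sum.inr (p + o, q) := by rw [hx i, hi]; rfl
    obtain ⟨p1, p1', q1, e1, e2, e3⟩ : ∃ p p' q, (x i).1 = Sum.inr (p, q) ∧
        (x' i).1 = Sum.inr (p', q) ∧ ∀ d, Nr 2 d → l (p + d) = l' (p' + d) := by
      rcases h.1 i with ⟨h0, h1, -⟩ | h1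
      · exact absurd (hxi.symm.trans h1) (by simp)
      · exact h1
    have e4 : ((p + o, q) : Pos × Q) = (p1, q1) := Sum.inr.inj (hxi.symm.trans e1)
    obtain ⟨rfl, rfl⟩ := Prod.mk.inj e4
    have ho : Nr 1 o := by
      have := S.near Rl (l p) y hy i o q hi
      simpa [Nr] using this
    have hl : l p = l' (p1' - o) := by
      have := e3 (-o) (ho.neg.mono (by norm_num))
      rwa [add_neg_cancel_right, ← sub_eq_add_neg] at this
    refine ⟨p1' - o, y, hl ▸ hy, fun j => ?_⟩
    rcases shift_zero_sub (hx j) with ⟨h0, h1, h2⟩ | ⟨o2, q2, h1, h2⟩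
    · rw [h1]
      rcases h.1 j with ⟨h3, h4, h5⟩ | ⟨_, _, _, h4, -⟩
      · have : h0 = h3 := Sum.inl.inj (h2.symm.trans h4)
        subst this
        exact h5
      · exact absurd (h2.symm.trans h4) (by simp)
    · rw [h1]
      rcases h.1 j with ⟨h3, h4, -⟩ | ⟨p3, p3', q3, h4, h5, -⟩
      · exact absurd (h2.symm.trans h4) (by simp)
      · have h6 : ((p + o2, q2) : Pos × Q) = (p3, q3) := Sum.inr.inj (h2.symm.trans h4)
        obtain ⟨rfl, rfl⟩ := Prod.mk.inj h6
        have ho2 : Nr 1 o2 := by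
          have := S.near Rl (l p) y hy j o2 q2 h1
          simpa [Nr] using this
        have h7 := h.2 j i _ _ _ _ _ _ h4 h5 e1 e2 (Or.inl (by
          have := ho2.add ho.neg
          have e : p + o2 - (p + o) = o2 + -o := by abel
          rw [e]
          exact this))
        refine Eq.trans h5 ?_
        change Sum.inr (p3', q2) = Sum.inr (p1' - o + o2, q2)
        have h8 : p3' = p1' - o + o2 := by
          have e : p + o2 - (p + o) = o2 - o := by abel
          rw [e] at h7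
          rw [eq_sub_iff_add_eq] at h7
          rw [← h7]
          abel
        rw [h8]
  · push Not at hi
    have hne : {u | win 0 l u = win 0 l p}.encard ≠ 0 := by
      rw [Set.encard_ne_zero]
      exact ⟨p, rfl⟩
    have h1 := hC 0 le_rfl (win 0 l p)
    have h2 : {u | win 0 l' u = win 0 l p}.encard ≠ 0 := by
      intro h3
      rw [h3, min_eq_right (by simp : (0 : ℕ∞) ≤ ((1 : ℕ) : ℕ∞))] at h1
      rcases min_choice ((1 : ℕ) : ℕ∞) {u | win 0 l u = win 0 l p}.encard with h4 | h4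
      · rw [h4] at h1
        simp at h1
      · rw [h4] at h1
        exact hne h1
    rw [Set.encard_ne_zero] at h2
    obtain ⟨p', hp'⟩ := h2
    have h3 : l p = l' p' := by
      have := (win_eq.1 hp'.symm) 0 (Nr.zero 0)
      simpa using this
    refine ⟨p', y, h3 ▸ hy, fun i => ?_⟩
    rcases shift_zero_sub (hx i) with ⟨h0, h4, h5⟩ | ⟨o2, q2, h4, h5⟩
    · rw [h4]
      rcases h.1 i with ⟨h6, h7, h8⟩ | ⟨_, _, _, h7, -⟩
      · have : h0 = h6 := Sum.inl.inj (h5.symm.trans h7)
        subst this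
        exact h8
      · exact absurd (h5.symm.trans h7) (by simp)
    · exact absurd h4 (hi i o2 q2)

lemma eq_forth {l l' : Pos → Λ} {n r : ℕ} {x x' : Fin n → H ⊕ (Pos × Q)}
    (h : BF r l l' x x') {i j : Fin n} (hij : x i = x j) : x' i = x' j := by
  rcases h.1 i with ⟨h1, h2, h3⟩ | ⟨p, p', q, h2, h3, -⟩
  · rcases h.1 j with ⟨h4, h5, h6⟩ | ⟨_, _, _, h5, -⟩
    · have : h1 = h4 := Sum.inl.inj (h2.symm.trans (hij.trans h5))
      rw [h3, h6, this]
    · exact absurd (h2.symm.trans (hij.trans h5)) (by simp)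
  · rcases h.1 j with ⟨h4, h5, h6⟩ | ⟨p1, p1', q1, h5, h6, -⟩
    · exact absurd (h2.symm.trans (hij.trans h5)) (by simp)
    · have h7 : ((p, q) : Pos × Q) = (p1, q1) := Sum.inr.inj (h2.symm.trans (hij.trans h5))
      obtain ⟨rfl, rfl⟩ := Prod.mk.inj h7
      have h8 := h.2 i j _ _ _ _ _ _ h2 h3 h5 h6 (Or.inl (by rw [sub_self]; exact Nr.zero r))
      rw [sub_self] at h8
      rw [h3, h6, sub_eq_zero.1 h8.symm]

/-! ## The step of the back and forth -/

lemma forth (S : Sys L Λ H Q) {n : ℕ} {l l' : Pos → Λ} {SH : Set H} {r0 R T : ℕ} (hR : r0 ≤ R)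
    (hT : Nat.card (Fin n × Box r0) < T) (hC : CountEq R T l l') {x x' : Fin n → H ⊕ (Pos × Q)}
    (h : BF (3 * r0) l l' x x') (e : S.Car l SH) :
    ∃ e' : S.Car l' SH, BF r0 l l' (Fin.snoc x e.1 : Fin (n + 1) → H ⊕ (Pos × Q))
      (Fin.snoc x' e'.1 : Fin (n + 1) → H ⊕ (Pos × Q)) := by
  obtain ⟨e, he⟩ := e
  rcases e with h0 | ⟨p, q⟩
  · refine ⟨⟨Sum.inl h0, he⟩, (h.mono (by omega)).snoc (Or.inl ⟨h0, rfl, rfl⟩) fun j => ?_⟩
    intro p p' q p1 p1' q1 e1
    exact absurd e1 (by simp)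
  · -- it is enough to find the position
    suffices hs : ∃ p', (∀ d, Nr r0 d → l (p + d) = l' (p' + d)) ∧
        ∀ j p1 p1' q1, x j = Sum.inr (p1, q1) → x' j = Sum.inr (p1', q1) →
          (Nr r0 (p - p1) ∨ Nr r0 (p' - p1')) → p - p1 = p' - p1' by
      obtain ⟨p', hp', hj⟩ := hs
      have hl : l p = l' p' := by
        have := hp' 0 (Nr.zero r0)
        simpa using this
      refine ⟨⟨Sum.inr (p', q), ?_⟩, (h.mono (by omega)).snoc (Or.inr ⟨p, p', q, rfl, rfl, hp'⟩)
        fun j => ?_⟩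
      · change S.sel (l' p') q
        rw [← hl]
        exact he
      · intro p2 p2' q2 p1 p1' q1 e1 e2 e3 e4 e5
        obtain ⟨rfl, rfl⟩ := Prod.mk.inj (Sum.inr.inj e1)
        obtain ⟨rfl, -⟩ := Prod.mk.inj (Sum.inr.inj e2)
        exact hj j p1 p1' q1 e3 e4 e5
    by_cases hnear : ∃ j p1 q1, x j = Sum.inr (p1, q1) ∧ Nr (2 * r0) (p - p1)
    · obtain ⟨i, pi, qi, hi, hpi⟩ := hnear
      obtain ⟨pi', hi', hw⟩ : ∃ p', x' i = Sum.inr (p', qi) ∧
          ∀ d, Nr (3 * r0) d → l (pi + d) = l' (p' + d) := by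
        rcases h.1 i with ⟨h0, h1, -⟩ | ⟨p1, p1', q1, e1, e2, e3⟩
        · exact absurd (hi.symm.trans h1) (by simp)
        · obtain ⟨rfl, rfl⟩ := Prod.mk.inj (Sum.inr.inj (hi.symm.trans e1))
          exact ⟨p1', e2, e3⟩
      refine ⟨pi' + (p - pi), fun d hd => ?_, fun j p1 p1' q1 e1 e2 e3 => ?_⟩
      · have h1 : Nr (3 * r0) (p - pi + d) := (hpi.add hd).mono (by omega)
        have h2 := hw _ h1
        have e1 : pi + (p - pi + d) = p + d := by abel
        have e2 : pi' + (p - pi + d) = pi' + (p - pi) + d := by abel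
        rwa [e1, e2] at h2
      · have h1 : pi - p1 = pi' - p1' := by
          refine h.2 i j _ _ _ _ _ _ hi hi' e1 e2 ?_
          rcases e3 with e3 | e3
          · left
            have e : pi - p1 = (pi - p) + (p - p1) := by abel
            rw [e]
            exact (hpi.comm.add e3).mono (by omega)
          · right
            have e : pi' - p1' = (pi - p) + (pi' + (p - pi) - p1') := by abel
            rw [e]
            exact (hpi.comm.add e3).mono (by omega)
        have e : pi' + (p - pi) - p1' = (pi' - p1') + (p - pi) := by abel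
        rw [e, ← h1]
        abel
    · by_contra hno
      push Not at hnear
      -- every occurrence in `l'` is close to one of the chosen elements
      have hocc : ∀ u : {u | win r0 l' u = win r0 l p}, ∃ j p1 p1' q1, x j = Sum.inr (p1, q1) ∧
          x' j = Sum.inr (p1', q1) ∧ (∀ d, Nr (3 * r0) d → l (p1 + d) = l' (p1' + d)) ∧
          Nr r0 (u.1 - p1') := by
        intro u
        by_contra hu
        push Not at hu
        apply hno
        refine ⟨u.1, win_eq.1 u.2.symm, fun j p1 p1' q1 e1 e2 e3 => ?_⟩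
        exfalso
        rcases e3 with e3 | e3
        · exact hnear j p1 q1 e1 (e3.mono (by omega))
        · refine hu j p1 p1' q1 e1 e2 ?_ e3
          rcases h.1 j with ⟨h0, h1, -⟩ | ⟨p2, p2', q2, f1, f2, f3⟩
          · exact absurd (e1.symm.trans h1) (by simp)
          · obtain ⟨rfl, rfl⟩ := Prod.mk.inj (Sum.inr.inj (e1.symm.trans f1))
            obtain ⟨rfl, -⟩ := Prod.mk.inj (Sum.inr.inj (e2.symm.trans f2))
            exact f3
      choose J P P' QQ h1 h2 h3 h4 using hocc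
      have hfin : {u | win r0 l' u = win r0 l p}.encard ≤ (Nat.card (Fin n × Box r0) : ℕ∞) := by
        have f : {u | win r0 l' u = win r0 l p} ↪ (Set.univ : Set (Fin n × Box r0)) :=
          ⟨fun u => ⟨(J u, ⟨u.1 - P' u, h4 u⟩), trivial⟩, by
            intro u v huv
            have e1 := congrArg Subtype.val huv
            obtain ⟨e2, e3⟩ := Prod.mk.inj e1
            have e4 : u.1 - P' u = v.1 - P' v := congrArg Subtype.val e3
            have e5 : P' u = P' v := by
              have := (h2 u).symm.trans ((congrArg x' e2).trans (h2 v))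
              exact (Prod.mk.inj (Sum.inr.inj this)).1
            rw [e5] at e4
            exact Subtype.ext (sub_left_injective e4)⟩
        have := f.encard_le
        rwa [Set.encard_univ, ENat.card_eq_coe_natCard] at this
      have hle : {u | win r0 l' u = win r0 l p}.encard ≤
          ({u | win r0 l u = win r0 l p} \ {p}).encard := by
        refine Function.Embedding.encard_le ⟨fun u => ⟨P u + (u.1 - P' u), ?_, ?_⟩, ?_⟩
        · refine Eq.trans ?_ u.2
          rw [win_eq]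
          intro d hd
          have := h3 u (u.1 - P' u + d) (((h4 u).add hd).mono (by omega))
          have e1 : P u + (u.1 - P' u + d) = P u + (u.1 - P' u) + d := by abel
          have e2 : P' u + (u.1 - P' u + d) = u.1 + d := by abel
          rwa [e1, e2] at this
        · intro hp
          rw [Set.mem_singleton_iff] at hp
          refine hnear (J u) (P u) (QQ u) (h1 u) ?_
          have e : p - P u = u.1 - P' u := by
            rw [sub_eq_iff_eq_add', hp]
          rw [e]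
          exact (h4 u).mono (by omega)
        · intro u v huv
          have e1 : P u + (u.1 - P' u) = P v + (v.1 - P' v) := congrArg Subtype.val huv
          have e2 : P u - P v = P' u - P' v := by
            refine h.2 (J u) (J v) _ _ _ _ _ _ (h1 u) (h2 u) (h1 v) (h2 v) (Or.inl ?_)
            have e : P u - P v = (v.1 - P' v) + -(u.1 - P' u) := by
              rw [sub_eq_iff_eq_add, ← sub_eq_iff_eq_add'] 
              rw [← sub_eq_iff_eq_add'] at e1
              rw [← e1]
              abel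
            rw [e]
            exact ((h4 v).add (h4 u).neg).mono (by omega)
          apply Subtype.ext
          have e3 : (u.1 : Pos) = P v + (v.1 - P' v) - P u + P' u := by
            rw [← e1]; abel
          have e4 : (v.1 : Pos) = u.1 + (P u - P v) - (P' u - P' v) := by
            rw [e3]; abel
          rw [e4, e2]
          abel
      have hadd := Set.encard_sdiff_singleton_add_one
        (show p ∈ {u | win r0 l u = win r0 l p} from rfl)
      have hc := hC r0 hR (win r0 l p)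
      have hlt : {u | win r0 l' u = win r0 l p}.encard < (T : ℕ∞) :=
        lt_of_le_of_lt hfin (by exact_mod_cast hT)
      rw [min_eq_right hlt.le] at hc
      have h5 : {u | win r0 l u = win r0 l p}.encard = {u | win r0 l' u = win r0 l p}.encard := by
        rcases min_choice (T : ℕ∞) {u | win r0 l u = win r0 l p}.encard with h6 | h6
        · rw [h6] at hc
          exact absurd hc.symm hlt.ne
        · rw [h6] at hc
          exact hc
      have h6 : {u | win r0 l' u = win r0 l p}.encard + 1 ≤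
          {u | win r0 l' u = win r0 l p}.encard := by
        calc _ ≤ ({u | win r0 l u = win r0 l p} \ {p}).encard + 1 := by gcongr
          _ = _ := hadd
          _ = _ := h5
      have h7 : {u | win r0 l' u = win r0 l p}.encard ≠ ⊤ := ne_top_of_lt hlt
      exact absurd h6 (not_le.2 (ENat.lt_add_one_iff h7 |>.2 le_rfl))

/-! ## The main induction -/

lemma term_var [L.IsRelational] {n : ℕ} (t : L.Term (Empty ⊕ Fin n)) :
    ∃ i, t = Term.var (Sum.inr i) := by
  cases t with
  | var v =>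
    rcases v with e | i
    · exact e.elim
    · exact ⟨i, rfl⟩
  | func f _ => exact isEmptyElim f

lemma main (S : Sys L Λ H Q) [L.IsRelational] {n : ℕ} (φ : L.BoundedFormula Empty n) :
    ∃ R T r : ℕ, ∀ (l l' : Pos → Λ) (SH : Set H), CountEq R T l l' →
      ∀ (x : Fin n → S.Car l SH) (x' : Fin n → S.Car l' SH),
        BF r l l' (fun i => (x i).1) (fun i => (x' i).1) →
          (φ.Realize default x ↔ φ.Realize default x') := by
  induction φ with
  | falsum => exact ⟨0, 0, 0, fun _ _ _ _ _ _ _ => Iff.rfl⟩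
  | equal t1 t2 =>
    obtain ⟨i, rfl⟩ := term_var t1
    obtain ⟨j, rfl⟩ := term_var t2
    refine ⟨0, 0, 0, fun l l' SH _ x x' h => ?_⟩
    simp only [BoundedFormula.Realize, Term.realize_var, Sum.elim_inr]
    exact ⟨fun e => Subtype.ext (eq_forth h (congrArg Subtype.val e)),
      fun e => Subtype.ext (eq_forth h.symm (congrArg Subtype.val e))⟩
  | rel Rl ts =>
    choose f hf using fun i => term_var (ts i)
    refine ⟨0, 1, 2, fun l l' SH hC x x' h => ?_⟩
    have e : ts = fun i => Term.var (Sum.inr (f i)) := funext hf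
    subst e
    simp only [BoundedFormula.Realize, Term.realize_var, Sum.elim_inr]
    exact ⟨rel_forth S Rl hC _ _ (h.comp f), rel_forth S Rl (ce_symm hC) _ _ (h.comp f).symm⟩
  | imp _ _ ih1 ih2 =>
    obtain ⟨R1, T1, r1, h1⟩ := ih1
    obtain ⟨R2, T2, r2, h2⟩ := ih2
    refine ⟨max R1 R2, max T1 T2, max r1 r2, fun l l' SH hC x x' h => ?_⟩
    have e1 := h1 l l' SH (ce_mono hC (le_max_left _ _) (le_max_left _ _)) x x'
      (h.mono (le_max_left _ _))
    have e2 := h2 l l' SH (ce_mono hC (le_max_right _ _) (le_max_right _ _)) x x'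
      (h.mono (le_max_right _ _))
    rw [BoundedFormula.realize_imp, BoundedFormula.realize_imp, e1, e2]
  | @all n _ ih =>
    obtain ⟨R, T, r0, h0⟩ := ih
    refine ⟨max R r0, max T (Nat.card (Fin n × Box r0) + 1), 3 * r0,
      fun l l' SH hC x x' h => ?_⟩
    have key : ∀ (l l' : Pos → Λ), CountEq (max R r0) (max T (Nat.card (Fin n × Box r0) + 1)) l l' →
        ∀ (x : Fin n → S.Car l SH) (x' : Fin n → S.Car l' SH),
        BF (3 * r0) l l' (fun i => (x i).1) (fun i => (x' i).1) → ∀ e : S.Car l SH,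
        ∃ e' : S.Car l' SH,
          BF r0 l l' (fun i => ((Fin.snoc x e : Fin (n + 1) → S.Car l SH) i).1)
            (fun i => ((Fin.snoc x' e' : Fin (n + 1) → S.Car l' SH) i).1) := by
      intro l l' hC x x' h e
      obtain ⟨e', he'⟩ := forth S (le_max_right _ _)
        (lt_of_lt_of_le (Nat.lt_succ_self _) (le_max_right _ _)) hC h e
      refine ⟨e', ?_⟩
      have f1 : (fun i => ((Fin.snoc x e : Fin (n + 1) → S.Car l SH) i).1) =
          (Fin.snoc (fun i => (x i).1) e.1 : Fin (n + 1) → H ⊕ (Pos × Q)) := by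
        funext i
        refine Fin.lastCases ?_ (fun i => ?_) i <;> simp
      have f2 : (fun i => ((Fin.snoc x' e' : Fin (n + 1) → S.Car l' SH) i).1) =
          (Fin.snoc (fun i => (x' i).1) e'.1 : Fin (n + 1) → H ⊕ (Pos × Q)) := by
        funext i
        refine Fin.lastCases ?_ (fun i => ?_) i <;> simp
      rw [f1, f2]
      exact he'
    have hC0 := ce_mono hC (le_max_left R r0) (le_max_left T (Nat.card (Fin n × Box r0) + 1))
    rw [BoundedFormula.realize_all, BoundedFormula.realize_all]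
    constructor
    · intro hx e'
      obtain ⟨e, he⟩ := key l' l (ce_symm hC) x' x h.symm e'
      exact (h0 l l' SH hC0 _ _ he.symm).1 (hx e)
    · intro hx e
      obtain ⟨e', he⟩ := key l l' hC x x' h e
      exact (h0 l l' SH hC0 _ _ he).2 (hx e')

theorem t_HANF : HanfStm := by
  intro L _ Λ H Q _ S φ
  obtain ⟨R, T, r, h⟩ := main S φ
  refine ⟨R, T, fun l l' SH hC => ?_⟩
  exact h l l' SH hC default default ⟨fun i => i.elim0, fun i => i.elim0⟩

end Pool.Agent.U15.HC
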